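import Pool.Agent.H61.NVK.TargetsE2
import Pool.Agent.H87.HK.YC
import Pool.Agent.H66.HK.FD

/-! Row E_SSB of the board nvk_modules: the bound of the sum of the nonzero frequencies. -/

set_option autoImplicit false

open MeasureTheory Set Filter NumberField NumberField.InfinitePlace
open Pool.Agent.H65.CM4 Pool.Agent.H61.CM4 Pool.Agent.H61.NVK
open scoped Real nonZeroDivisors

namespace Pool.Agent.H78.NVE_SSB

theorem arith (n : ℕ) (κ C Q T : ℝ) (hκ : 0 < κ) (hC : 0 < C) (hQ : 1 ≤ Q) (hT : 1 ≤ T) :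
    C * (1 + Q / (κ / T)) ^ n * Real.exp (-(κ / T / (2 * Q))) *
      (C * (1 + Q / (κ * T)) ^ n * Real.exp (-(κ * T / (2 * Q)))) ≤
    C ^ 2 * (1 + 1 / κ) ^ (2 * n) * (2 * n).factorial * (2 / κ) ^ (2 * n) *
      Q ^ (4 * n) * (T ^ n)⁻¹ := by
  have hQ0 : 0 < Q := by linarith
  have hT0 : 0 < T := by linarith
  have hQT : 1 ≤ Q * T := one_le_mul_of_one_le_of_one_le hQ hT
  have h1 : 1 + Q / (κ / T) ≤ Q * T * (1 + 1 / κ) := by
    have : Q / (κ / T) = Q * T * (1 / κ) := by field_simp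
    rw [this]
    nlinarith
  have h2 : 1 + Q / (κ * T) ≤ Q * (1 + 1 / κ) := by
    have h3 : Q / (κ * T) ≤ Q * (1 / κ) := by
      rw [mul_one_div]
      apply div_le_div_of_nonneg_left hQ0.le hκ
      nlinarith
    nlinarith
  have h4 : Real.exp (-(κ / T / (2 * Q))) ≤ 1 := by
    rw [Real.exp_le_one_iff]
    have : 0 ≤ κ / T / (2 * Q) := by positivity
    linarith
  have h5 : Real.exp (-(κ * T / (2 * Q))) ≤
      (2 * n).factorial * (2 / κ) ^ (2 * n) * Q ^ (2 * n) * (T ^ (2 * n))⁻¹ := by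
    have hX : 0 < κ * T / (2 * Q) := by positivity
    have h6 := Real.pow_div_factorial_le_exp (κ * T / (2 * Q)) hX.le (2 * n)
    have hf : (0 : ℝ) < (2 * n).factorial := by exact_mod_cast Nat.factorial_pos _
    rw [div_le_iff₀ hf] at h6
    rw [Real.exp_neg, inv_le_comm₀ (Real.exp_pos _) (by positivity)]
    have h7 : ((2 * n).factorial * (2 / κ) ^ (2 * n) * Q ^ (2 * n) * (T ^ (2 * n))⁻¹)⁻¹ =
        (κ * T / (2 * Q)) ^ (2 * n) / (2 * n).factorial := by
      rw [div_pow, div_pow, mul_pow, mul_pow]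
      field_simp
    rw [h7, div_le_iff₀ hf]
    exact h6
  have h8 : 0 ≤ 1 + Q / (κ / T) := by positivity
  have h9 : 0 ≤ 1 + Q / (κ * T) := by positivity
  calc C * (1 + Q / (κ / T)) ^ n * Real.exp (-(κ / T / (2 * Q))) *
        (C * (1 + Q / (κ * T)) ^ n * Real.exp (-(κ * T / (2 * Q))))
      ≤ C * (Q * T * (1 + 1 / κ)) ^ n * 1 * (C * (Q * (1 + 1 / κ)) ^ n *
        ((2 * n).factorial * (2 / κ) ^ (2 * n) * Q ^ (2 * n) * (T ^ (2 * n))⁻¹)) := by
        have e1 : (1 + Q / (κ / T)) ^ n ≤ (Q * T * (1 + 1 / κ)) ^ n := pow_le_pow_left₀ h8 h1 n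
        have e2 : (1 + Q / (κ * T)) ^ n ≤ (Q * (1 + 1 / κ)) ^ n := pow_le_pow_left₀ h9 h2 n
        apply mul_le_mul
        · apply mul_le_mul (mul_le_mul_of_nonneg_left e1 hC.le) h4 (Real.exp_pos _).le
          positivity
        · exact mul_le_mul (mul_le_mul_of_nonneg_left e2 hC.le) h5 (Real.exp_pos _).le
            (by positivity)
        · positivity
        · positivity
    _ = _ := by
        have h10 : T ^ n * (T ^ (2 * n))⁻¹ = (T ^ n)⁻¹ := by
          rw [two_mul, pow_add, mul_inv]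
          field_simp
        calc _ = C ^ 2 * (1 + 1 / κ) ^ (2 * n) * (2 * n).factorial * (2 / κ) ^ (2 * n) *
              Q ^ (4 * n) * (T ^ n * (T ^ (2 * n))⁻¹) := by
              rw [mul_pow (Q * T), mul_pow Q T, mul_pow Q (1 + 1 / κ)]
              ring
          _ = _ := by rw [h10]

theorem pf_SSB (hTBO : T_TBO) : T_SSB := by
  classical
  intro k _ _ _ η hη
  obtain ⟨C, hC, hT⟩ := hTBO k
  obtain ⟨-, -, -, hyc, -, hB⟩ := Pool.Agent.H87.HK.yc_main k
  obtain ⟨-, ⟨B, hBd⟩, -⟩ := Pool.Agent.H66.HK.fd k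
  obtain ⟨C0, hC0⟩ := hB B
  have hn : 0 < dg k := Module.finrank_pos
  obtain ⟨n, hndef⟩ : ∃ n, n = dg k := ⟨_, rfl⟩
  rw [← hndef] at hT hn
  obtain ⟨κ, hκdef⟩ : ∃ κ, κ = π / 2 * η * Real.exp (-C0) := ⟨_, rfl⟩
  have hκ : 0 < κ := by rw [hκdef]; positivity
  refine ⟨C ^ 2 * (1 + 1 / κ) ^ (2 * n) * (2 * n).factorial * (2 / κ) ^ (2 * n), 2 * (4 * n),
    by positivity, ?_⟩
  intro I J q y t z hz hq hI hJ hy ht
  have ht0 : 0 < t := by linarith
  obtain ⟨T, hTdef⟩ : ∃ T, T = Real.exp (2 * Real.log t / n) := ⟨_, rfl⟩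
  have hT0 : 0 < T := by rw [hTdef]; exact Real.exp_pos _
  have hT1 : 1 ≤ T := by
    rw [hTdef]
    apply Real.one_le_exp
    have := Real.log_nonneg ht
    positivity
  have hTn : T ^ n = t ^ 2 := by
    rw [hTdef, ← Real.exp_nat_mul]
    have h1 : (n : ℝ) * (2 * Real.log t / n) = 2 * Real.log t := by
      have : (n : ℝ) ≠ 0 := by exact_mod_cast hn.ne'
      field_simp
    rw [h1, two_mul, Real.exp_add, Real.exp_log ht0, sq]
  obtain ⟨c, hcdef⟩ : ∃ c, c = Pool.Agent.H25.HK.yc k (Real.log t) z := ⟨_, rfl⟩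
  rw [← hcdef]
  have hc : ∀ v, c v = 2 * Real.log t / n + Pool.Agent.H25.HK.yc k 0 z v := by
    intro v
    rw [hcdef, hyc, hndef]
    rfl
  have hyz : ∀ v, |Pool.Agent.H25.HK.yc k 0 z v| ≤ C0 := hC0 z (hBd z hz)
  have hd2 : ∀ v, κ * T ≤ π / 2 * y v * Real.exp (c v) := by
    intro v
    have h1 : Real.exp (-C0) * T ≤ Real.exp (c v) := by
      rw [hTdef, ← Real.exp_add, hc]
      apply Real.exp_le_exp.2
      have := (abs_le.1 (hyz v)).1
      linarith
    calc κ * T = π / 2 * η * (Real.exp (-C0) * T) := by rw [hκdef]; ring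
      _ ≤ π / 2 * y v * Real.exp (c v) := by
        have := hy v
        have hy0 : 0 < y v := lt_of_lt_of_le hη this
        gcongr
  have hd1 : ∀ v, κ / T ≤ π / 2 * y v * Real.exp (-c v) := by
    intro v
    have h1 : Real.exp (-C0) / T ≤ Real.exp (-c v) := by
      rw [hTdef, ← Real.exp_sub, hc]
      apply Real.exp_le_exp.2
      have := (abs_le.1 (hyz v)).2
      linarith
    calc κ / T = π / 2 * η * (Real.exp (-C0) / T) := by rw [hκdef]; ring
      _ ≤ π / 2 * y v * Real.exp (-c v) := by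
        have := hy v
        have hy0 : 0 < y v := lt_of_lt_of_le hη this
        have : 0 < Real.exp (-C0) / T := by positivity
        gcongr
  obtain ⟨hs1, hb1⟩ := hT I q (κ / T) (fun v => π / 2 * y v * Real.exp (-c v)) hq hI
    (by positivity) hd1
  obtain ⟨hs2, hb2⟩ := hT J q (κ * T) (fun v => π / 2 * y v * Real.exp (c v)) hq hJ
    (by positivity) hd2
  have hprod : SS I J y c =
      (∑' m : k, if m ∈ I ∧ m ≠ 0 then
        Real.exp (-∑ v, π / 2 * y v * Real.exp (-c v) * rv v m ^ 2) else 0) *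
      (∑' m : k, if m ∈ J ∧ m ≠ 0 then
        Real.exp (-∑ v, π / 2 * y v * Real.exp (c v) * rv v m ^ 2) else 0) := by
    rw [tsum_mul_tsum_of_summable_norm hs1.norm hs2.norm]
    unfold SS
    refine tsum_congr fun p => ?_
    by_cases h1 : p.1 ∈ I ∧ p.1 ≠ 0
    · by_cases h2 : p.2 ∈ J ∧ p.2 ≠ 0
      · rw [if_pos ⟨h1, h2⟩, if_pos h1, if_pos h2, ← Real.exp_add]
        congr 1
        unfold ex2
        rw [Finset.mul_sum, ← Finset.sum_neg_distrib, ← Finset.sum_neg_distrib,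
          ← Finset.sum_add_distrib]
        refine Finset.sum_congr rfl fun v _ => ?_
        ring
      · rw [if_neg (fun h => h2 h.2), if_neg h2, mul_zero]
    · rw [if_neg (fun h => h1 h.1), if_neg h1, zero_mul]
  rw [hprod]
  have hq2 : (1 : ℝ) ≤ (q : ℝ) ^ 2 := by
    have : (1 : ℝ) ≤ q := by exact_mod_cast hq
    exact one_le_pow₀ this
  have hb10 : 0 ≤ ∑' m : k, if m ∈ J ∧ m ≠ 0 then
      Real.exp (-∑ v, π / 2 * y v * Real.exp (c v) * rv v m ^ 2) else 0 := by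
    refine tsum_nonneg fun m => ?_
    split_ifs
    · exact (Real.exp_pos _).le
    · exact le_rfl
  calc _ ≤ C * (1 + (q : ℝ) ^ 2 / (κ / T)) ^ n * Real.exp (-(κ / T / (2 * (q : ℝ) ^ 2))) *
        (C * (1 + (q : ℝ) ^ 2 / (κ * T)) ^ n * Real.exp (-(κ * T / (2 * (q : ℝ) ^ 2)))) :=
        mul_le_mul hb1 hb2 hb10 (by positivity)
    _ ≤ _ := arith n κ C ((q : ℝ) ^ 2) T hκ hC hq2 hT1
    _ = _ := by
        rw [hTn, Real.rpow_neg ht0.le, Real.rpow_two, ← pow_mul]

end Pool.Agent.H78.NVE_SSB
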